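import Pool.Agent.W2helper38.AC.Stm

set_option autoImplicit false

open Set Filter Topology Metric
open scoped ContDiff

noncomputable section

namespace Pool.Agent.W2helper82.AC

open Pool.Agent.W2helper38.AC

/-- the basic picture: for `z ≠ 0` the line `E (pr z)` is spanned by a unit vector `w` with
`⟨z, w⟩ = ‖z‖ c`, `0 < c`. -/
theorem pic (h2 : StmA2) (h3 : StmA3) (E : M → M) (hE : Good E) (z : V) (hz : z ≠ 0) :
    ∃ (w : V) (c : ℝ), ‖w‖ = 1 ∧ E (pr z) = rk w w ∧ 0 < c ∧ inner ℂ z w = ((‖z‖ * c : ℝ) : ℂ) := by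
  obtain ⟨ha, hb, hc, hd, he, hf⟩ := h2
  have hn : ‖z‖ ≠ 0 := norm_ne_zero_iff.mpr hz
  have hn0 : (0 : ℝ) < ‖z‖ := norm_pos_iff.mpr hz
  set u : V := ((‖z‖⁻¹ : ℝ) : ℂ) • z with hu
  have hul : ‖u‖ = 1 := by
    rw [hu, norm_smul, Complex.norm_real, norm_inv, norm_norm, inv_mul_cancel₀ hn]
  have hpu : pr u = pr z := hb z _ (by simpa using hz)
  have hpr : pr z = rk u u := by rw [← hpu]; exact hc u hul
  obtain ⟨hE1, hE2, hE3⟩ := hE
  have hX : pr z ∈ X := ha z hz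
  have h5 := hE3 _ hX
  obtain ⟨w, c, hw, hQ, hc0, hc1, hin⟩ := h3 u hul (E (pr z)) (hE2 _ hX) (by
    rw [hpr] at h5 ⊢
    exact h5)
  refine ⟨w, c, hw, hQ, hc0, ?_⟩
  have h6 : z = ((‖z‖ : ℝ) : ℂ) • u := by
    rw [hu, smul_smul, ← Complex.ofReal_mul, mul_inv_cancel₀ hn]
    simp
  conv_lhs => rw [h6]
  rw [inner_smul_left, hin]
  simp

theorem pic' (h2 : StmA2) (h3 : StmA3) (E : M → M) (hE : Good E) (z : V) (hz : z ≠ 0) :
    ∃ (w : V) (c : ℝ), ‖w‖ = 1 ∧ E (pr z) = rk w w ∧ 0 < c ∧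
      inner ℂ z w = ((‖z‖ * c : ℝ) : ℂ) ∧ inner ℂ w z = ((‖z‖ * c : ℝ) : ℂ) ∧
      ap (E (pr z)) z = ((‖z‖ * c : ℝ) : ℂ) • w ∧
      (inner ℂ z (ap (E (pr z)) z) : ℂ).re = (‖z‖ * c) ^ 2 ∧ cc E z = c := by
  obtain ⟨w, c, hw, hQ, hc0, hin⟩ := pic h2 h3 E hE z hz
  have hn0 : (0 : ℝ) < ‖z‖ := norm_pos_iff.mpr hz
  have h1 : inner ℂ w z = ((‖z‖ * c : ℝ) : ℂ) := by
    rw [← inner_conj_symm, hin, Complex.conj_ofReal]
  have h4 : ap (E (pr z)) z = ((‖z‖ * c : ℝ) : ℂ) • w := by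
    rw [hQ, h2.2.2.2.2.2 w z, h1]
  have h5 : (inner ℂ z (ap (E (pr z)) z) : ℂ).re = (‖z‖ * c) ^ 2 := by
    rw [h4, inner_smul_right, hin, ← Complex.ofReal_mul, Complex.ofReal_re]
    ring
  refine ⟨w, c, hw, hQ, hc0, hin, h1, h4, h5, ?_⟩
  unfold cc
  rw [h5, Real.sqrt_sq (by positivity)]
  field_simp

theorem smooth_coord (j : Fin 3) : ContDiff ℝ ∞ (fun z : V => z j) :=
  ((EuclideanSpace.proj j : V →L[ℂ] ℂ).restrictScalars ℝ).contDiff

theorem smooth_conj : ContDiff ℝ ∞ (fun z : ℂ => star z) :=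
  (Complex.conjCLE : ℂ →L[ℝ] ℂ).contDiff

theorem smooth_ofReal : ContDiff ℝ ∞ (fun z : ℝ => (z : ℂ)) :=
  Complex.ofRealCLM.contDiff

theorem smooth_toLp : ContDiff ℝ ∞ (fun f : Fin 3 → ℂ => (WithLp.toLp 2 f : V)) :=
  (((EuclideanSpace.equiv (Fin 3) ℂ).symm : (Fin 3 → ℂ) →L[ℂ] V).restrictScalars ℝ).contDiff

theorem smooth_pr : ContDiffOn ℝ ∞ pr {z : V | z ≠ 0} := by
  rw [contDiffOn_pi]
  intro i
  rw [contDiffOn_pi]
  intro j
  have h1 : ContDiffOn ℝ ∞ (fun z : V => z i * star (z j)) {z : V | z ≠ 0} :=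
    ((smooth_coord i).mul (smooth_conj.comp (smooth_coord j))).contDiffOn
  have h2 : ContDiffOn ℝ ∞ (fun z : V => ((‖z‖ ^ 2 : ℝ) : ℂ)) {z : V | z ≠ 0} :=
    (smooth_ofReal.comp (contDiff_norm_sq ℂ)).contDiffOn
  have h3 : ContDiffOn ℝ ∞ (fun z : V => (((‖z‖ ^ 2 : ℝ) : ℂ))⁻¹) {z : V | z ≠ 0} := by
    refine h2.inv ?_
    intro z hz
    have : ‖z‖ ≠ 0 := norm_ne_zero_iff.mpr hz
    simpa using this
  have h4 := h1.mul h3
  refine h4.congr ?_
  intro z hz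
  simp only [pr, div_eq_mul_inv]

theorem smooth_ap : ContDiff ℝ ∞ (fun q : M × V => ap q.1 q.2) := by
  refine smooth_toLp.comp ?_
  rw [contDiff_pi]
  intro i
  refine ContDiff.sum fun j _ => ?_
  refine ContDiff.mul ?_ ((smooth_coord j).comp contDiff_snd)
  have h1 : ContDiff ℝ ∞ (fun A : M => A i j) :=
    (contDiff_apply ℝ ℂ j).comp (contDiff_apply ℝ (Fin 3 → ℂ) i)
  exact h1.comp contDiff_fst

theorem c1 : StmA1 → StmA2 → StmA3 → StmC1 := by
  intro h1 h2 h3 E hE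
  have hpic := pic' h2 h3 E hE
  have hap : ContDiffOn ℝ ∞ (fun z : V => ap (E (pr z)) z) {z : V | z ≠ 0} := by
    have h5 : ContDiffOn ℝ ∞ (fun z : V => (E (pr z), z)) {z : V | z ≠ 0} :=
      (hE.1.comp_contDiffOn smooth_pr).prodMk contDiffOn_id
    exact smooth_ap.comp_contDiffOn h5
  have hcc : ContDiffOn ℝ ∞ (cc E) {z : V | z ≠ 0} := by
    unfold cc
    have h6 : ContDiffOn ℝ ∞ (fun z : V => (inner ℂ z (ap (E (pr z)) z) : ℂ).re)
        {z : V | z ≠ 0} :=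
      Complex.reCLM.contDiff.comp_contDiffOn (contDiffOn_id.inner ℂ hap)
    refine (h6.sqrt ?_).div (contDiffOn_id.norm ℂ ?_) ?_
    · intro z hz
      obtain ⟨w, c, hw, hQ, hc0, hin, hin', h4, h5, h7⟩ := hpic z hz
      have hn0 : (0 : ℝ) < ‖z‖ := norm_pos_iff.mpr hz
      rw [h5]
      positivity
    · intro z hz
      exact hz
    · intro z hz
      exact norm_ne_zero_iff.mpr hz
  refine ⟨?_, ?_, ?_, ?_, ?_, ?_⟩
  · have hs : MapsTo (fun q : ℝ × V => q.2) {q : ℝ × V | q.2 ≠ 0} {z : V | z ≠ 0} := fun q hq => hq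
    have h8 : ContDiffOn ℝ ∞ (fun q : ℝ × V => cc E q.2) {q : ℝ × V | q.2 ≠ 0} :=
      hcc.comp contDiff_snd.contDiffOn hs
    have h9 : ContDiffOn ℝ ∞ (fun q : ℝ × V => ap (E (pr q.2)) q.2) {q : ℝ × V | q.2 ≠ 0} :=
      hap.comp contDiff_snd.contDiffOn hs
    unfold mm
    exact (((contDiff_const.sub contDiff_fst).contDiffOn.mul h8).smul contDiff_snd.contDiffOn).add
      (contDiff_fst.contDiffOn.smul h9)
  · intro t z a ha
    have hp : pr (a • z) = pr z := h2.2.1 z a ha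
    have hc : cc E (a • z) = cc E z := by
      unfold cc
      rw [hp, h2.2.2.2.2.1, inner_smul_left, inner_smul_right, norm_smul]
      have h10 : (starRingEnd ℂ a * (a * inner ℂ z (ap (E (pr z)) z))).re =
          ‖a‖ ^ 2 * (inner ℂ z (ap (E (pr z)) z) : ℂ).re := by
        rw [← mul_assoc, mul_comm (starRingEnd ℂ a) a, Complex.mul_conj, Complex.re_ofReal_mul,
          Complex.normSq_eq_norm_sq]
      rw [h10, Real.sqrt_mul (by positivity), Real.sqrt_sq (norm_nonneg _)]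
      have h11 : ‖a‖ ≠ 0 := norm_ne_zero_iff.mpr ha
      rw [mul_div_mul_left _ _ h11]
    unfold mm
    simp only
    rw [hc, hp, h2.2.2.2.2.1, smul_add, smul_comm a, smul_comm a]
  · intro t z hz h0
    obtain ⟨w, c, hw, hQ, hc0, hin, hin', h4, h5, h7⟩ := hpic z hz
    have hn0 : (0 : ℝ) < ‖z‖ := norm_pos_iff.mpr hz
    unfold mm at h0
    simp only at h0
    rw [h7, h4] at h0
    have e1 : inner ℂ z (((1 - t) * c) • z + t • ((‖z‖ * c : ℝ) : ℂ) • w) = 0 := by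
      rw [h0, inner_zero_right]
    have e2 : inner ℂ w (((1 - t) * c) • z + t • ((‖z‖ * c : ℝ) : ℂ) • w) = 0 := by
      rw [h0, inner_zero_right]
    rw [inner_add_right] at e1 e2
    have k1 : ((((1 - t) * c) * ‖z‖ ^ 2 + t * ((‖z‖ * c) * (‖z‖ * c)) : ℝ) : ℂ) = 0 := by
      rw [← e1, inner_smul_right_eq_smul, inner_smul_right_eq_smul, inner_smul_right,
        inner_self_eq_norm_sq_to_K, hin]
      simp
    have k2 : ((((1 - t) * c) * (‖z‖ * c) + t * (‖z‖ * c) : ℝ) : ℂ) = 0 := by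
      rw [← e2, inner_smul_right_eq_smul, inner_smul_right_eq_smul, inner_smul_right,
        inner_self_eq_norm_sq_to_K, hin', hw]
      simp
    rw [Complex.ofReal_eq_zero] at k1 k2
    have k3 : (‖z‖ ^ 2 * c) * ((1 - t) + t * c) = 0 := by linarith [k1]
    have k4 : (‖z‖ * c) * ((1 - t) * c + t) = 0 := by linarith [k2]
    have k5 : (1 - t) + t * c = 0 := by
      rcases mul_eq_zero.mp k3 with h | h
      · exact absurd h (by positivity)
      · exact h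
    have k6 : (1 - t) * c + t = 0 := by
      rcases mul_eq_zero.mp k4 with h | h
      · exact absurd h (by positivity)
      · exact h
    nlinarith
  · intro z hz
    obtain ⟨w, c, hw, hQ, hc0, hin, hin', h4, h5, h7⟩ := hpic z hz
    rw [h7]; exact hc0
  · intro z
    unfold mm
    simp
  · intro z hz
    obtain ⟨w, c, hw, hQ, hc0, hin, hin', h4, h5, h7⟩ := hpic z hz
    have hn0 : (0 : ℝ) < ‖z‖ := norm_pos_iff.mpr hz
    have : mm E (1, z) = ((‖z‖ * c : ℝ) : ℂ) • w := by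
      unfold mm
      simp only
      rw [h4]
      simp
    rw [this, h2.2.1 w _ (by
      rw [Ne, Complex.ofReal_eq_zero]
      positivity), h2.2.2.1 w hw, hQ]

end Pool.Agent.W2helper82.AC
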